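import Pool.Agent.V11217.GramCore

/-!
# Grammic monoids of rank at least 5 are not finitely presented

The letters `1 < 2 < ... < n` of the problem are the elements of `Fin n` (so `0, ..., n-1`).
The congruence classes responsible are those of the words `3 4^m 11323 0^m 1` (with the letters
`0,1,2,3,4` standing for `1,2,3,4,5`).
-/

namespace Pool.Agent.Results.MP_be768e_al.NotFP

open Pool.Agent.V11217.Gram (phi lis phi_eq_lis lis_eq_zero_of_lt lis_map G mid KA KB W W' lis_self
  side_left side_right disjoint_AB mid_W mid_W' W_equiv W_le W'_le facts_W)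

/-- the word over `ℕ` underlying a word over `Fin n` -/
def nat {n : ℕ} (u : FreeMonoid (Fin n)) : List ℕ := u.toList.map Fin.val

theorem nat_mul {n : ℕ} (u v : FreeMonoid (Fin n)) : nat (u * v) = nat u ++ nat v := by
  simp [nat, FreeMonoid.toList_mul]

theorem nat_lt {n : ℕ} (u : FreeMonoid (Fin n)) : ∀ a ∈ nat u, a < n := by
  intro a ha
  obtain ⟨b, -, rfl⟩ := List.mem_map.1 ha
  exact b.2

theorem gram_iff {n : ℕ} (u v : FreeMonoid (Fin n)) :
    (∀ p q : Fin n, p ≤ q → phi u.toList p q = phi v.toList p q) ↔ G n (nat u) (nat v) := by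
  have key : ∀ (w : FreeMonoid (Fin n)) (p q : Fin n), lis (nat w) p.1 q.1 = phi w.toList p q := by
    intro w p q
    rw [phi_eq_lis]
    exact lis_map Fin.val Fin.val_strictMono w.toList p q
  constructor
  · intro h p q hp hq
    rcases le_or_gt p q with hpq | hpq
    · have := h ⟨p, hp⟩ ⟨q, hq⟩ hpq
      rw [← key, ← key] at this
      exact this
    · rw [lis_eq_zero_of_lt hpq, lis_eq_zero_of_lt hpq]
  · intro h p q _
    rw [← key, ← key]
    exact h p.1 q.1 p.2 q.2

theorem G_mul {n : ℕ} {u v u' v' : FreeMonoid (Fin n)} (h : G n (nat u) (nat v))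
    (h' : G n (nat u') (nat v')) : G n (nat (u * u')) (nat (v * v')) := by
  rw [nat_mul, nat_mul]
  exact (h.append_right (nat u')).trans (h'.append_left (nat v))

/-- The grammic congruence on words over `[n]` (the letters are the elements of `Fin n`):
`u` and `v` are related iff for all `p ≤ q` the largest lengths `phi u p q`, `phi v p q` of weakly
increasing scattered subsequences with letters in `[p, q]` agree. -/
def gramCon (n : ℕ) : Con (FreeMonoid (Fin n)) where
  r u v := ∀ p q : Fin n, p ≤ q → phi u.toList p q = phi v.toList p q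
  iseqv := ⟨fun _ _ _ _ => rfl, fun h p q hpq => (h p q hpq).symm,
    fun h h' p q hpq => (h p q hpq).trans (h' p q hpq)⟩
  mul' := by
    intro w x y z h1 h2
    exact (gram_iff _ _).2 (G_mul ((gram_iff _ _).1 h1) ((gram_iff _ _).1 h2))

theorem gramCon_iff {n : ℕ} (u v : FreeMonoid (Fin n)) : gramCon n u v ↔ G n (nat u) (nat v) :=
  gram_iff u v

/-- the congruence that keeps the two parts of the class of `W m` apart -/
def cm (n m : ℕ) (hn : 5 ≤ n) (hm : 6 ≤ m) : Con (FreeMonoid (Fin n)) where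
  r u v := G n (nat u) (nat v) ∧ (G n (W m) (nat u) → (mid (nat u) ∈ KA ↔ mid (nat v) ∈ KA))
  iseqv := by
    refine ⟨fun _ => ⟨fun _ _ _ _ => rfl, fun _ => Iff.rfl⟩, ?_, ?_⟩
    · rintro x y ⟨h1, h2⟩
      exact ⟨h1.symm, fun h => (h2 (h.trans h1.symm)).symm⟩
    · rintro x y z ⟨h1, h2⟩ ⟨h3, h4⟩
      exact ⟨h1.trans h3, fun h => (h2 h).trans (h4 (h.trans h1))⟩
  mul' := by
    rintro u v u' v' ⟨h1, h2⟩ ⟨h3, h4⟩
    refine ⟨G_mul h1 h3, ?_⟩
    rw [nat_mul, nat_mul]
    intro h
    have e1 : mid (nat u ++ nat u') ∈ KA ↔ mid (nat v ++ nat u') ∈ KA := by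
      by_cases hne : nat u' = []
      · rw [hne] at h ⊢
        simp only [List.append_nil] at h ⊢
        exact h2 h
      · exact side_right hn hm (nat_lt u') hne h1 h
    have h' : G n (W m) (nat v ++ nat u') := h.trans (h1.append_right _)
    have e2 : mid (nat v ++ nat u') ∈ KA ↔ mid (nat v ++ nat v') ∈ KA := by
      by_cases hne : nat v = []
      · rw [hne] at h' ⊢
        simp only [List.nil_append] at h' ⊢
        exact h4 h'
      · exact side_left hn hm (nat_lt v) hne h3 h'
    exact e1.trans e2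

theorem exists_word {n : ℕ} (hn : 5 ≤ n) (w : List ℕ) (hw : ∀ a ∈ w, a ≤ 4) :
    ∃ u : FreeMonoid (Fin n), nat u = w := by
  refine ⟨FreeMonoid.ofList (w.attach.map (fun a => ⟨a.1, by have := hw a.1 a.2; omega⟩)), ?_⟩
  simp [nat]

theorem count_le_length_word {n m : ℕ} (hn : 5 ≤ n) (hm : 3 ≤ m) {u : FreeMonoid (Fin n)}
    (h : G n (W m) (nat u)) : m ≤ u.toList.length := by
  have f := h.facts hn hm
  have := List.count_le_length (a := 0) (l := nat u)
  rw [f.c0] at this
  simpa [nat] using this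

theorem not_fin_gen {n : ℕ} (hn : 5 ≤ n) :
    ¬ ∃ E : Set (FreeMonoid (Fin n) × FreeMonoid (Fin n)), E.Finite ∧
      conGen (fun u v => (u, v) ∈ E) = gramCon n := by
  rintro ⟨E, hE, hgen⟩
  -- a bound for the lengths of the first components
  obtain ⟨N, hN⟩ : ∃ N, ∀ e ∈ E, e.1.toList.length ≤ N := by
    obtain ⟨N, hN⟩ := (hE.image (fun e => e.1.toList.length)).bddAbove
    exact ⟨N, fun e he => hN ⟨e, he, rfl⟩⟩
  set m := max 6 (N + 1) with hm
  have hm6 : 6 ≤ m := le_max_left _ _
  have hmN : N + 1 ≤ m := le_max_right _ _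
  have hle : conGen (fun u v => (u, v) ∈ E) ≤ cm n m hn hm6 := by
    refine Con.conGen_le.2 ?_
    intro u v huv
    have hg : gramCon n u v := by rw [← hgen]; exact ConGen.Rel.of u v huv
    refine ⟨(gramCon_iff u v).1 hg, fun h => ?_⟩
    exfalso
    have h1 := count_le_length_word hn (by omega) h
    have h2 := hN _ huv
    simp only at h2
    omega
  obtain ⟨u, hu⟩ := exists_word hn (W m) (W_le m)
  obtain ⟨v, hv⟩ := exists_word hn (W' m) (W'_le m)
  have huv : gramCon n u v := by
    rw [gramCon_iff, hu, hv]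
    exact W_equiv n m (by omega)
  rw [← hgen] at huv
  have h := (hle huv).2 (by rw [hu]; exact fun _ _ _ _ => rfl)
  rw [hu, hv] at h
  exact disjoint_AB _ (h.1 (mid_W m)) (mid_W' m)

/-- A monoid is finitely presented if it is isomorphic to `⟨A | R⟩` for a finite alphabet `A` and a
finite set `R` of pairs of words over `A`. -/
def IsFP (M : Type) [Monoid M] : Prop :=
  ∃ (A : Type) (_ : Finite A) (R : Set (FreeMonoid A × FreeMonoid A)), R.Finite ∧
    Nonempty (PresentedMonoid (fun u v => (u, v) ∈ R) ≃* M)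

/-- finite presentability does not depend on the finite generating set -/
theorem fin_gen_of_isFP {B : Type} [Finite B] (c : Con (FreeMonoid B)) (h : IsFP c.Quotient) :
    ∃ E : Set (FreeMonoid B × FreeMonoid B), E.Finite ∧ conGen (fun u v => (u, v) ∈ E) = c := by
  obtain ⟨A, _, R, hR, ⟨e⟩⟩ := h
  set πR := PresentedMonoid.mk (fun u v => (u, v) ∈ R) with hπR
  have hα : ∀ a : A, ∃ w : FreeMonoid B, c.mk' w = e (πR (FreeMonoid.of a)) := fun a =>
    Con.mk'_surjective _
  choose α hα using hα
  have hβ : ∀ b : B, ∃ w : FreeMonoid A, πR w = e.symm (c.mk' (FreeMonoid.of b)) := fun b =>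
    PresentedMonoid.surjective_mk _
  choose β hβ using hβ
  set α' := FreeMonoid.lift α with hα'
  set β' := FreeMonoid.lift β with hβ'
  have e1 : c.mk'.comp α' = e.toMonoidHom.comp πR := by
    refine FreeMonoid.hom_eq (fun a => ?_)
    rw [MonoidHom.comp_apply, hα', FreeMonoid.lift_eval_of, hα]
    rfl
  have e2 : πR.comp β' = e.symm.toMonoidHom.comp c.mk' := by
    refine FreeMonoid.hom_eq (fun b => ?_)
    simp [hβ', hβ]
  have e1' : ∀ w, c.mk' (α' w) = e (πR w) := fun w => DFunLike.congr_fun e1 w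
  have e2' : ∀ w, πR (β' w) = e.symm (c.mk' w) := fun w => DFunLike.congr_fun e2 w
  refine ⟨Prod.map α' α' '' R ∪ Set.range (fun b : B => (FreeMonoid.of b, α' (β b))),
    (hR.image _).union (Set.finite_range _), ?_⟩
  set E := Prod.map α' α' '' R ∪ Set.range (fun b : B => (FreeMonoid.of b, α' (β b))) with hE
  apply le_antisymm
  · refine Con.conGen_le.2 ?_
    rintro u v (⟨⟨x, y⟩, hxy, h⟩ | ⟨b, h⟩)
    · simp only [Prod.map_apply, Prod.mk.injEq] at h
      obtain ⟨rfl, rfl⟩ := h
      refine (Con.eq c).1 ?_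
      change c.mk' (α' x) = c.mk' (α' y)
      rw [e1', e1', PresentedMonoid.mk_eq_mk_of_rel hxy]
    · simp only [Prod.mk.injEq] at h
      obtain ⟨rfl, rfl⟩ := h
      refine (Con.eq c).1 ?_
      change c.mk' (FreeMonoid.of b) = c.mk' (α' (β b))
      rw [e1', hβ, e.apply_symm_apply]
  · intro u v huv
    have h1 : conGen (fun u v => (u, v) ∈ R) (β' u) (β' v) := by
      rw [← PresentedMonoid.mk_eq_mk_iff]
      change πR (β' u) = πR (β' v)
      rw [e2', e2']
      exact congrArg e.symm ((Con.eq c).2 huv)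
    have h2 : conGen (fun u v => (u, v) ∈ R) ≤
        Con.comap α' (map_mul α') (conGen (fun u v => (u, v) ∈ E)) := by
      refine Con.conGen_le.2 (fun x y hxy => ?_)
      exact ConGen.Rel.of _ _ (Or.inl ⟨(x, y), hxy, rfl⟩)
    have h3 := h2 h1
    have h4 : (conGen (fun u v => (u, v) ∈ E)).mk' =
        ((conGen (fun u v => (u, v) ∈ E)).mk'.comp α').comp β' := by
      refine FreeMonoid.hom_eq (fun b => ?_)
      simp only [MonoidHom.comp_apply, hβ', FreeMonoid.lift_eval_of]
      refine (Con.eq _).2 ?_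
      exact ConGen.Rel.of _ _ (Or.inr ⟨b, rfl⟩)
    have h5 : ∀ w, conGen (fun u v => (u, v) ∈ E) w (α' (β' w)) := fun w =>
      (Con.eq _).1 (DFunLike.congr_fun h4 w)
    exact ((h5 u).trans h3).trans (h5 v).symm

/-- **For every `n ≥ 5` the grammic monoid of rank `n` is not finitely presented.** The grammic
congruence on words over `[n]` is not generated by any finite set of pairs of words, and the
grammic monoid is not isomorphic to any `⟨A | R⟩` with `A` and `R` finite. -/
theorem result : ∀ n : ℕ, 5 ≤ n →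
    (¬ ∃ E : Set (FreeMonoid (Fin n) × FreeMonoid (Fin n)), E.Finite ∧
      conGen (fun u v => (u, v) ∈ E) = gramCon n) ∧
    ¬ IsFP (gramCon n).Quotient :=
  fun n hn => ⟨not_fin_gen hn, fun h => not_fin_gen hn (fin_gen_of_isFP (gramCon n) h)⟩

end Pool.Agent.Results.MP_be768e_al.NotFP
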